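import Mathlib
import Pool.Agent.Lib.MP_695dce_co.Main

open Filter Topology

namespace Pool.Agent.Results.MP_695dce_co.ThreeSizes

/-- The closed solid axis-parallel cube in `ℝ^d` with lowest corner `a` and side length `s`. -/
def cube {d : ℕ} (a : Fin d → ℝ) (s : ℝ) : Set (EuclideanSpace ℝ (Fin d)) :=
  {x | ∀ i, a i ≤ x i ∧ x i ≤ a i + s}

/-- The `n` cubes with corners `a j` and (positive) side lengths `s j` tile the unit cube
`[0,1]^d`: their interiors are pairwise disjoint and their union is the unit cube. -/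
def IsTiling {d n : ℕ} (a : Fin n → Fin d → ℝ) (s : Fin n → ℝ) : Prop :=
  (∀ j, 0 < s j) ∧
    (∀ j k, j ≠ k → Disjoint (interior (cube (a j) (s j))) (interior (cube (a k) (s k)))) ∧
    (⋃ j, cube (a j) (s j)) = cube 0 1

/-- In every dimension `d ≥ 1` (in particular `d = 3`) three sizes suffice with ratio tending
to `1`: for all `n ≥ n₀` the unit cube is tiled by exactly `n` cubes with at most three distinct
side lengths, and the ratio of the largest to the smallest side length tends to `1`. -/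
theorem result (d : ℕ) (hd : 1 ≤ d) :
    ∃ (n₀ : ℕ) (a : (n : ℕ) → Fin n → Fin d → ℝ) (s : (n : ℕ) → Fin n → ℝ),
      (∀ n ≥ n₀, IsTiling (a n) (s n) ∧ (Set.range (s n)).ncard ≤ 3) ∧
      Tendsto (fun n => (⨆ j, s n j) / (⨅ j, s n j)) atTop (𝓝 1) := by
  obtain ⟨n₀, a, s, h, ht⟩ := Pool.Agent.Lib.MP_695dce_co.main d hd
  exact ⟨n₀, a, s, fun n hn => ⟨⟨(h n hn).1, (h n hn).2.1, (h n hn).2.2.1⟩, (h n hn).2.2.2⟩, ht⟩

end Pool.Agent.Results.MP_695dce_co.ThreeSizes
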